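import Pool.Agent.Run7.h500.RD.Stm

/-!
# Piece FUB of project RD (helper500, MP_9de3af_an)
-/

set_option autoImplicit false

open MeasureTheory Filter Topology Set

namespace Pool.Agent.Run7.h298.RD

open Pool.Agent.Run7.h500.RD

/-- The shear of the plane preserves the volume. -/
lemma mp_shear (a : ℝ) : MeasurePreserving (fun z : ℝ × ℝ => (z.1 + a * z.2, z.2))
    (volume : Measure (ℝ × ℝ)) (volume : Measure (ℝ × ℝ)) := by
  have hsw : MeasurePreserving (Prod.swap : ℝ × ℝ → ℝ × ℝ) ((volume : Measure ℝ).prod volume)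
      ((volume : Measure ℝ).prod volume) := Measure.measurePreserving_swap
  have hg : Measurable (Function.uncurry (fun y b : ℝ => b + a * y)) := by
    unfold Function.uncurry
    fun_prop
  have hsk : MeasurePreserving (fun p : ℝ × ℝ => (p.1, p.2 + a * p.1))
      ((volume : Measure ℝ).prod volume) ((volume : Measure ℝ).prod volume) :=
    (MeasurePreserving.id (volume : Measure ℝ)).skew_product (g := fun y b : ℝ => b + a * y) hg
      (Eventually.of_forall fun y => (measurePreserving_add_right volume (a * y)).map_eq)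
  exact hsw.comp (hsk.comp hsw)

/-- The reflection of the plane preserves the volume. -/
lemma mp_refl : MeasurePreserving (fun z : ℝ × ℝ => (z.1, -z.2))
    (volume : Measure (ℝ × ℝ)) (volume : Measure (ℝ × ℝ)) := by
  have h : MeasurePreserving (Prod.map (id : ℝ → ℝ) (fun y : ℝ => -y))
      ((volume : Measure ℝ).prod volume) ((volume : Measure ℝ).prod volume) :=
    (MeasurePreserving.id (volume : Measure ℝ)).prod (Measure.measurePreserving_neg volume)
  exact h

lemma im_lin (c : ℂ) (a : ℝ) (z : ℝ × ℝ) : ((a : ℂ) * (z.2 : ℂ) - (z.1 : ℂ) + c).im = c.im := by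
  simp

lemma lin_ne {c : ℂ} (hc : 0 < c.im) (a : ℝ) (z : ℝ × ℝ) :
    (a : ℂ) * (z.2 : ℂ) - (z.1 : ℂ) + c ≠ 0 := by
  intro h
  have := im_lin c a z
  rw [h] at this
  simp at this
  linarith

/-- The basic estimate for real slopes. -/
lemma weight_le {c : ℂ} (hc : 0 < c.im) (a : ℝ) (z : ℝ × ℝ) :
    1 + |z.1 - a * z.2| ≤ ((1 + ‖c‖) / c.im + 1) * ‖(a : ℂ) * (z.2 : ℂ) - (z.1 : ℂ) + c‖ := by
  set ζ : ℂ := (a : ℂ) * (z.2 : ℂ) - (z.1 : ℂ) + c with hζ
  have h1 : c.im ≤ ‖ζ‖ := by
    have := Complex.abs_im_le_norm ζ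
    rw [hζ, im_lin] at this
    exact (le_abs_self _).trans this
  have h2 : |z.1 - a * z.2| ≤ ‖ζ‖ + ‖c‖ := by
    have e : ζ.re = -(z.1 - a * z.2) + c.re := by
      rw [hζ]; simp
    have h3 := Complex.abs_re_le_norm ζ
    have h4 := Complex.abs_re_le_norm c
    have e2 : z.1 - a * z.2 = -ζ.re + c.re := by rw [e]; ring
    rw [e2]
    refine (abs_add_le _ _).trans ?_
    rw [abs_neg]
    linarith
  have h5 : 1 + ‖c‖ ≤ (1 + ‖c‖) / c.im * ‖ζ‖ := by
    rw [div_mul_eq_mul_div, le_div_iff₀ hc]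
    exact mul_le_mul_of_nonneg_left h1 (by positivity)
  nlinarith

lemma int_real {f : ℝ × ℝ → ℝ} {k : ℕ} (hf : Continuous f) {c : ℂ} (hc : 0 < c.im) {a : ℝ}
    (hw : WI f k a) : Integrable (fun z : ℝ × ℝ => (f z : ℂ) * Pool.Agent.Run7.h500.RD.ker k c (a : ℂ) z) := by
  have hcont : Continuous (fun z : ℝ × ℝ => (f z : ℂ) * Pool.Agent.Run7.h500.RD.ker k c (a : ℂ) z) := by
    unfold Pool.Agent.Run7.h500.RD.ker
    refine (Complex.continuous_ofReal.comp hf).mul (Continuous.inv₀ (by fun_prop) fun z => ?_)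
    exact pow_ne_zero k (lin_ne hc a z)
  have hb : Integrable (fun z : ℝ × ℝ =>
      ((1 + ‖c‖) / c.im + 1) ^ k * ‖f z / (1 + |z.1 - a * z.2|) ^ k‖) :=
    (Integrable.norm hw).const_mul _
  refine hb.mono' hcont.aestronglyMeasurable (Eventually.of_forall fun z => ?_)
  unfold Pool.Agent.Run7.h500.RD.ker
  have hpos : 0 < 1 + |z.1 - a * z.2| := by positivity
  have hK : 0 ≤ (1 + ‖c‖) / c.im + 1 := by positivity
  have h1 := pow_le_pow_left₀ hpos.le (weight_le hc a z) k
  rw [mul_pow] at h1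
  have hz : 0 < ‖(a : ℂ) * (z.2 : ℂ) - (z.1 : ℂ) + c‖ ^ k :=
    pow_pos (norm_pos_iff.2 (lin_ne hc a z)) k
  rw [norm_mul, Complex.norm_real, norm_inv, norm_pow, norm_div, norm_pow]
  have e : ‖1 + |z.1 - a * z.2|‖ = 1 + |z.1 - a * z.2| := by
    rw [Real.norm_eq_abs, abs_of_pos hpos]
  rw [e, ← mul_div_assoc, mul_comm (((1 + ‖c‖) / c.im + 1) ^ k), mul_div_assoc]
  refine mul_le_mul_of_nonneg_left ?_ (norm_nonneg _)
  rw [inv_eq_one_div, div_le_div_iff₀ hz (by positivity), one_mul]
  exact h1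

theorem t_FUB : S_FUB := by
  intro f k hf hzero c hc a hw
  set F : ℝ × ℝ → ℂ := fun z => (f z : ℂ) * Pool.Agent.Run7.h500.RD.ker k c (a : ℂ) z with hF
  have hFi : Integrable F := int_real hf hc hw
  have hFc : Continuous F := by
    rw [hF]
    unfold Pool.Agent.Run7.h500.RD.ker
    refine (Complex.continuous_ofReal.comp hf).mul (Continuous.inv₀ (by fun_prop) fun z => ?_)
    exact pow_ne_zero k (lin_ne hc a z)
  -- the lower half
  have hmu : MeasurableSet up := measurableSet_lt measurable_const measurable_snd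
  have hdown : Vp (Pool.Agent.Run7.h500.RD.flip f) k c (-(a : ℂ)) = ∫ z in {z : ℝ × ℝ | z.2 < 0}, F z := by
    have hme : MeasurableSet {z : ℝ × ℝ | z.2 < 0} := measurableSet_lt measurable_snd measurable_const
    unfold Vp
    rw [← integral_indicator hmu, ← integral_indicator hme]
    have h1 : ∫ z, ({z : ℝ × ℝ | z.2 < 0}).indicator F z =
        ∫ z : ℝ × ℝ, ({z : ℝ × ℝ | z.2 < 0}).indicator F (z.1, -z.2) := by
      conv_lhs => rw [← mp_refl.map_eq]
      rw [integral_map mp_refl.measurable.aemeasurable]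
      exact (hFc.measurable.indicator hme).aestronglyMeasurable
    rw [h1]
    refine integral_congr_ae (Eventually.of_forall fun z => ?_)
    simp only
    by_cases hz : 0 < z.2
    · have m1 : z ∈ up := hz
      have m2 : ((z.1, -z.2) : ℝ × ℝ) ∈ {z : ℝ × ℝ | z.2 < 0} := by
        show -z.2 < 0
        linarith
      rw [indicator_of_mem m1, indicator_of_mem m2]
      simp only [hF, Pool.Agent.Run7.h500.RD.flip, Pool.Agent.Run7.h500.RD.ker]
      have e : (-(a : ℂ)) * (z.2 : ℂ) - (z.1 : ℂ) + c =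
          (a : ℂ) * ((-z.2 : ℝ) : ℂ) - (z.1 : ℂ) + c := by
        push_cast
        ring
      rw [e]
    · have m1 : z ∉ up := hz
      have m2 : ((z.1, -z.2) : ℝ × ℝ) ∉ {z : ℝ × ℝ | z.2 < 0} := by
        intro h
        have : -z.2 < 0 := h
        exact hz (by linarith)
      rw [indicator_of_notMem m1, indicator_of_notMem m2]
  have hup : Vp f k c (a : ℂ) = ∫ z in up, F z := rfl
  -- the line is null
  have hline : (volume : Measure (ℝ × ℝ)) {z : ℝ × ℝ | z.2 = 0} = 0 := by
    have e : {z : ℝ × ℝ | z.2 = 0} = (univ : Set ℝ) ×ˢ ({0} : Set ℝ) := by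
      ext z; simp
    rw [e, Measure.volume_eq_prod, Measure.prod_prod]
    simp
  have hsum : (∫ z in up, F z) + ∫ z in {z : ℝ × ℝ | z.2 < 0}, F z = ∫ z, F z := by
    have hme : MeasurableSet {z : ℝ × ℝ | z.2 < 0} := measurableSet_lt measurable_snd measurable_const
    have hdisj : Disjoint up {z : ℝ × ℝ | z.2 < 0} := by
      rw [Set.disjoint_left]
      intro z h1 h2
      have h1' : 0 < z.2 := h1
      have h2' : z.2 < 0 := h2
      linarith
    rw [← setIntegral_union hdisj hme hFi.integrableOn hFi.integrableOn]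
    conv_rhs => rw [← setIntegral_univ]
    refine setIntegral_congr_set ?_
    refine (ae_eq_set).2 ⟨?_, ?_⟩
    · simp
    · refine measure_mono_null ?_ hline
      intro z hz
      have h1 : ¬ (0 < z.2 ∨ z.2 < 0) := fun h => hz.2 h
      have : z.2 = 0 := by
        rcases lt_trichotomy z.2 0 with h | h | h
        · exact absurd (Or.inr h) h1
        · exact h
        · exact absurd (Or.inl h) h1
      exact this
  rw [hup, hdown, hsum]
  -- the shear
  have hsh := mp_shear a
  have h1 : ∫ z, F z = ∫ z : ℝ × ℝ, F (z.1 + a * z.2, z.2) := by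
    conv_lhs => rw [← hsh.map_eq]
    rw [integral_map hsh.measurable.aemeasurable hFc.aestronglyMeasurable]
  have h2 : Integrable (fun z : ℝ × ℝ => F (z.1 + a * z.2, z.2)) :=
    (hsh.integrable_comp hFc.aestronglyMeasurable).2 hFi
  rw [h1, Measure.volume_eq_prod] at *
  rw [integral_prod _ h2]
  refine integral_eq_zero_of_ae (Eventually.of_forall fun b => ?_)
  simp only [Pi.zero_apply]
  have h3 : ∀ y : ℝ, F (b + a * y, y) = (f (b + a * y, y) : ℂ) * ((c - (b : ℂ)) ^ k)⁻¹ := by
    intro y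
    simp only [hF, Pool.Agent.Run7.h500.RD.ker]
    have e : (a : ℂ) * (y : ℂ) - ((b + a * y : ℝ) : ℂ) + c = c - (b : ℂ) := by
      push_cast
      ring
    rw [e]
  have h4 : ∫ y : ℝ, (f (b + a * y, y) : ℂ) = 0 := by
    have h5 := integral_ofReal (𝕜 := ℂ) (μ := (volume : Measure ℝ))
      (f := fun y : ℝ => f (b + a * y, y))
    rw [hzero a b] at h5
    simpa using h5
  calc ∫ y : ℝ, F (b + a * y, y)
      = ∫ y : ℝ, (f (b + a * y, y) : ℂ) * ((c - (b : ℂ)) ^ k)⁻¹ :=
        integral_congr_ae (Eventually.of_forall h3)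
    _ = 0 := by rw [integral_mul_const, h4, zero_mul]

end Pool.Agent.Run7.h298.RD


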