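import Pool.Agent.Run7.h500.RD.Stm

/-!
# Piece LINE of project RD (helper500, MP_9de3af_an)
-/

set_option autoImplicit false

open MeasureTheory Filter Topology Set

namespace Pool.Agent.Run7.h298.RD

open Pool.Agent.Run7.h500.RD

lemma norm_ge_im {c : ℂ} (x : ℝ) : c.im ≤ ‖c - (x : ℂ)‖ := by
  have h := Complex.abs_im_le_norm (c - (x : ℂ))
  have e : (c - (x : ℂ)).im = c.im := by simp
  rw [e] at h
  exact (le_abs_self _).trans h

lemma inv_pow_le {c : ℂ} {δ : ℝ} (hδ : 0 < δ) (hc : δ ≤ c.im) (x : ℝ) (n : ℕ) :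
    ‖((c - (x : ℂ)) ^ n)⁻¹‖ ≤ (δ ^ n)⁻¹ := by
  rw [norm_inv, norm_pow]
  exact inv_anti₀ (by positivity) (pow_le_pow_left₀ hδ.le (hc.trans (norm_ge_im x)) n)

lemma meas_F {g : ℝ → ℝ} (hg : Continuous g) (c : ℂ) (n : ℕ) :
    Measurable (fun x : ℝ => (g x : ℂ) * ((c - (x : ℂ)) ^ n)⁻¹) := by
  have := hg.measurable
  fun_prop

lemma int_F {g : ℝ → ℝ} (hg : Continuous g) (hi : Integrable g) {c : ℂ} (hc : 0 < c.im) (n : ℕ) :
    Integrable (fun x : ℝ => (g x : ℂ) * ((c - (x : ℂ)) ^ n)⁻¹) := by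
  have hb : Integrable (fun x : ℝ => |g x| * (c.im ^ n)⁻¹) := hi.abs.mul_const _
  refine hb.mono' (meas_F hg c n).aestronglyMeasurable (Eventually.of_forall fun x => ?_)
  rw [norm_mul, Complex.norm_real, Real.norm_eq_abs]
  exact mul_le_mul_of_nonneg_left (inv_pow_le hc le_rfl x n) (abs_nonneg _)

lemma down {g : ℝ → ℝ} (hg : Continuous g) (hi : Integrable g) {q : ℕ} (hq : 1 ≤ q)
    (h : ∀ c : ℂ, 0 < c.im → ∫ x : ℝ, (g x : ℂ) * ((c - (x : ℂ)) ^ (q + 1))⁻¹ = 0) :
    ∀ c : ℂ, 0 < c.im → ∫ x : ℝ, (g x : ℂ) * ((c - (x : ℂ)) ^ q)⁻¹ = 0 := by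
  set H : ℂ → ℂ := fun c => ∫ x : ℝ, (g x : ℂ) * ((c - (x : ℂ)) ^ q)⁻¹ with hH
  have hder : ∀ c0 : ℂ, 0 < c0.im → HasDerivAt H 0 c0 := by
    intro c0 hc0
    have hδ : 0 < c0.im / 2 := by positivity
    have hball : ∀ c ∈ Metric.ball c0 (c0.im / 2), c0.im / 2 ≤ c.im := by
      intro c hc
      rw [Metric.mem_ball, dist_eq_norm] at hc
      have h1 := Complex.abs_im_le_norm (c - c0)
      rw [Complex.sub_im] at h1
      have h2 := (abs_le.1 (h1.trans hc.le)).1
      linarith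
    have hd := hasDerivAt_integral_of_dominated_loc_of_deriv_le (μ := (volume : Measure ℝ))
      (F := fun (c : ℂ) (x : ℝ) => (g x : ℂ) * ((c - (x : ℂ)) ^ q)⁻¹)
      (F' := fun (c : ℂ) (x : ℝ) => (-(q : ℂ)) * ((g x : ℂ) * ((c - (x : ℂ)) ^ (q + 1))⁻¹))
      (x₀ := c0) (s := Metric.ball c0 (c0.im / 2))
      (bound := fun x => q * (|g x| * ((c0.im / 2) ^ (q + 1))⁻¹))
      (Metric.ball_mem_nhds c0 hδ)
      (Eventually.of_forall fun c => (meas_F hg c q).aestronglyMeasurable)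
      (int_F hg hi hc0 q)
      ((meas_F hg c0 (q + 1)).const_mul _).aestronglyMeasurable
      (Eventually.of_forall fun x c hc => by
        rw [norm_mul, norm_neg, Complex.norm_natCast, norm_mul, Complex.norm_real,
          Real.norm_eq_abs]
        refine mul_le_mul_of_nonneg_left ?_ (Nat.cast_nonneg _)
        exact mul_le_mul_of_nonneg_left (inv_pow_le hδ (hball c hc) x (q + 1)) (abs_nonneg _))
      ((hi.abs.mul_const _).const_mul _)
      (Eventually.of_forall fun x c hc => by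
        have hne : c - (x : ℂ) ≠ 0 := by
          intro h0
          have h1 := norm_ge_im (c := c) x
          rw [h0, norm_zero] at h1
          have := hball c hc
          linarith
        have h1 : HasDerivAt (fun c : ℂ => (c - (x : ℂ)) ^ q)
            ((q : ℂ) * (c - (x : ℂ)) ^ (q - 1) * 1) c :=
          ((hasDerivAt_id c).sub_const (x : ℂ)).pow q
        have h2 := (h1.inv (pow_ne_zero q hne)).const_mul (g x : ℂ)
        refine h2.congr_deriv ?_
        obtain ⟨q', rfl⟩ : ∃ q', q = q' + 1 := ⟨q - 1, by omega⟩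
        simp only [Nat.add_sub_cancel]
        field_simp
        ring)
    have e : ∫ x : ℝ, (-(q : ℂ)) * ((g x : ℂ) * ((c0 - (x : ℂ)) ^ (q + 1))⁻¹) = 0 := by
      rw [integral_const_mul, h c0 hc0, mul_zero]
    have h3 := hd.2
    rw [e] at h3
    exact h3
  have hopen : IsOpen {c : ℂ | 0 < c.im} := isOpen_lt continuous_const Complex.continuous_im
  have hconv : Convex ℝ {c : ℂ | 0 < c.im} := convex_halfSpace_im_gt 0
  have hconst : ∀ c c' : ℂ, 0 < c.im → 0 < c'.im → H c = H c' := by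
    intro c c' hc hc'
    exact hopen.is_const_of_deriv_eq_zero hconv.isPreconnected
      (fun z hz => (hder z hz).differentiableAt.differentiableWithinAt)
      (fun z hz => (hder z hz).deriv) hc hc'
  intro c hc
  show H c = 0
  by_contra hne
  have hpos : 0 < ‖H c‖ := norm_pos_iff.2 hne
  set M : ℝ := ∫ x, |g x| with hM
  have hM0 : 0 ≤ M := integral_nonneg fun x => abs_nonneg _
  have hle : ∀ t : ℝ, 1 ≤ t → ‖H c‖ ≤ M * t⁻¹ := by
    intro t ht
    have ht0 : 0 < t := by linarith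
    have him : ((t : ℂ) * Complex.I).im = t := by simp
    rw [hconst c ((t : ℂ) * Complex.I) hc (by rw [him]; exact ht0)]
    have h1 : ‖H ((t : ℂ) * Complex.I)‖ ≤ ∫ x, |g x| * t⁻¹ := by
      refine norm_integral_le_of_norm_le (hi.abs.mul_const _) (Eventually.of_forall fun x => ?_)
      rw [norm_mul, Complex.norm_real, Real.norm_eq_abs]
      refine mul_le_mul_of_nonneg_left ?_ (abs_nonneg _)
      refine (inv_pow_le ht0 him.ge x q).trans ?_
      refine inv_anti₀ ht0 ?_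
      calc t = t ^ 1 := (pow_one t).symm
        _ ≤ t ^ q := pow_le_pow_right₀ ht hq
    rw [integral_mul_const] at h1
    exact h1
  have h2 := hle (M / ‖H c‖ + 1) (by have := div_nonneg hM0 hpos.le; linarith)
  have h3 : 0 < M / ‖H c‖ + 1 := by have := div_nonneg hM0 hpos.le; linarith
  rw [← div_eq_mul_inv, le_div_iff₀ h3, mul_add, mul_div_cancel₀ _ hpos.ne', mul_one] at h2
  linarith

theorem t_LINE : S_LINE := by
  intro g p hg hi hp h x0
  -- reduction to `p = 1`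
  have h1 : ∀ q : ℕ, (∀ c : ℂ, 0 < c.im → ∫ x : ℝ, (g x : ℂ) * ((c - (x : ℂ)) ^ (q + 1))⁻¹ = 0) →
      ∀ c : ℂ, 0 < c.im → ∫ x : ℝ, (g x : ℂ) * ((c - (x : ℂ)) ^ 1)⁻¹ = 0 := by
    intro q
    induction q with
    | zero => intro hq; simpa using hq
    | succ q ih => intro hq; exact ih (down hg hi (by omega) hq)
  obtain ⟨q, rfl⟩ : ∃ q, p = q + 1 := ⟨p - 1, by omega⟩
  have h2 := h1 q h
  -- the Poisson kernel
  set φ : ℝ → ℝ := fun s => Real.pi⁻¹ * (1 + s ^ 2)⁻¹ with hφ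
  have hφ0 : ∀ s, 0 ≤ φ s := fun s => by
    have := Real.pi_pos
    positivity
  have hφ1 : ∫ s, φ s = 1 := by
    rw [hφ, integral_const_mul, integral_univ_inv_one_add_sq, inv_mul_cancel₀ Real.pi_ne_zero]
  have hφ2 : Tendsto (fun x : ℝ => ‖x‖ ^ Module.finrank ℝ ℝ * φ x) (Bornology.cobounded ℝ)
      (𝓝 0) := by
    have hinv : Tendsto (fun x : ℝ => Real.pi⁻¹ * ‖x‖⁻¹) (Bornology.cobounded ℝ) (𝓝 0) := by
      have := (tendsto_inv_atTop_zero.comp (tendsto_norm_cobounded_atTop (E := ℝ))).const_mul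
        Real.pi⁻¹
      simpa using this
    refine squeeze_zero (fun x => mul_nonneg (by positivity) (hφ0 x)) (fun x => ?_) hinv
    rw [Module.finrank_self, pow_one, hφ]
    simp only
    have hpi := Real.pi_pos
    have e : ‖x‖ * (Real.pi⁻¹ * (1 + x ^ 2)⁻¹) = Real.pi⁻¹ * (‖x‖ * (1 + x ^ 2)⁻¹) := by ring
    rw [e]
    refine mul_le_mul_of_nonneg_left ?_ (by positivity)
    rcases eq_or_ne x 0 with rfl | hx
    · simp
    · have hn : 0 < ‖x‖ := norm_pos_iff.2 hx
      rw [← div_eq_mul_inv, div_le_iff₀ (by positivity), ← sq_abs, ← Real.norm_eq_abs]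
      have : ‖x‖⁻¹ * (1 + ‖x‖ ^ 2) = ‖x‖⁻¹ + ‖x‖ := by field_simp
      rw [this]
      have : 0 < ‖x‖⁻¹ := by positivity
      linarith
  have hlim := tendsto_integral_comp_smul_smul_of_integrable' (μ := (volume : Measure ℝ)) hφ0 hφ1
    hφ2 hi (hg.continuousAt (x := x0))
  have hzero : ∀ᶠ c : ℝ in atTop, (∫ x, (c ^ Module.finrank ℝ ℝ * φ (c • (x0 - x))) • g x) = 0 := by
    filter_upwards [eventually_gt_atTop (0 : ℝ)] with c hc
    set w : ℂ := ⟨x0, c⁻¹⟩ with hw
    have hwim : 0 < w.im := by rw [hw]; positivity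
    have h3 := h2 w hwim
    have h4 := int_F hg hi hwim 1
    have h5 : ∫ x : ℝ, ((g x : ℂ) * ((w - (x : ℂ)) ^ 1)⁻¹).im = 0 := by
      have := Complex.imCLM.integral_comp_comm h4
      rw [h3] at this
      simpa using this
    have h6 : ∀ x : ℝ, (c ^ Module.finrank ℝ ℝ * φ (c • (x0 - x))) • g x =
        (-Real.pi⁻¹) * ((g x : ℂ) * ((w - (x : ℂ)) ^ 1)⁻¹).im := by
      intro x
      rw [Complex.im_ofReal_mul, pow_one, Complex.inv_im, Complex.normSq_apply]
      have e1 : (w - (x : ℂ)).re = x0 - x := by simp [hw]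
      have e2 : (w - (x : ℂ)).im = c⁻¹ := by simp [hw]
      rw [e1, e2, Module.finrank_self, pow_one, hφ]
      simp only [smul_eq_mul]
      have e3 : (x0 - x) * (x0 - x) + c⁻¹ * c⁻¹ = (1 + (c * (x0 - x)) ^ 2) / c ^ 2 := by
        field_simp
        ring
      rw [e3]
      have hp : (1 + (c * (x0 - x)) ^ 2) ≠ 0 := by positivity
      field_simp
    calc ∫ x, (c ^ Module.finrank ℝ ℝ * φ (c • (x0 - x))) • g x
        = ∫ x : ℝ, (-Real.pi⁻¹) * ((g x : ℂ) * ((w - (x : ℂ)) ^ 1)⁻¹).im :=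
          integral_congr_ae (Eventually.of_forall h6)
      _ = 0 := by rw [integral_const_mul, h5, mul_zero]
  have hlim0 : Tendsto (fun c : ℝ => ∫ x, (c ^ Module.finrank ℝ ℝ * φ (c • (x0 - x))) • g x)
      atTop (𝓝 0) := by
    refine Tendsto.congr' ?_ tendsto_const_nhds
    filter_upwards [hzero] with c hc
    exact hc.symm
  exact tendsto_nhds_unique hlim hlim0

end Pool.Agent.Run7.h298.RD


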